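import Mathlib

/-!
ROOM HO (helper907): compactness lemmas: positivity for small `ε` from completed squares.
-/

open Filter Topology

namespace H907H

/-- Third order version. -/
theorem pos_small3 {Z ι : Type*} [TopologicalSpace Z] [CompactSpace Z] [Fintype ι]
    (c : ι → ℝ) (hc : ∀ i, 0 < c i) (q : ι → Z → ℝ) (hq : ∀ i, Continuous (q i))
    (r : ι → ℝ → Z → ℝ) (S T : Z → ℝ) (hSc : Continuous S) (hTc : Continuous T)
    (hS : ∀ z, 0 ≤ S z) (hT : ∀ z, (∀ i, q i z = 0) → S z = 0 → 0 < T z)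
    (P : ℝ → Z → ℝ) (C : ℝ) (hr : ∀ i ε z, 0 < ε → ε ≤ 1 → |r i ε z| ≤ C)
    (hP : ∀ ε z, 0 < ε → ε ≤ 1 → ∑ i, c i * (q i z + ε * r i ε z) ^ 2 + ε ^ 2 * S z +
      ε ^ 3 * T z - C * ε ^ 4 ≤ P ε z) :
    ∃ ε₀ : ℝ, 0 < ε₀ ∧ ∀ ε, 0 < ε → ε ≤ ε₀ → ∀ z, 0 < P ε z := by
  classical
  rcases isEmpty_or_nonempty Z with hZ | hZ
  · exact ⟨1, one_pos, fun ε _ _ z => (hZ.false z).elim⟩
  -- a lower bound for `T` near the zero set
  set m : Z → ℝ := fun z => ∑ i, q i z ^ 2 + S z with hm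
  have hmc : Continuous m := (continuous_finsetSum _ fun i _ => (hq i).pow 2).add hSc
  have hm0 : ∀ z, 0 ≤ m z := fun z => add_nonneg (Finset.sum_nonneg fun i _ => sq_nonneg _) (hS z)
  have hmz : ∀ z, m z = 0 → (∀ i, q i z = 0) ∧ S z = 0 := by
    intro z hz
    have h1 : 0 ≤ ∑ i, q i z ^ 2 := Finset.sum_nonneg fun i _ => sq_nonneg _
    have h2 : ∑ i, q i z ^ 2 = 0 := by
      have := hS z
      simp only [hm] at hz
      linarith
    have h3 : S z = 0 := by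
      simp only [hm] at hz
      linarith
    refine ⟨fun i => ?_, h3⟩
    have := (Finset.sum_eq_zero_iff_of_nonneg (fun i _ => sq_nonneg (q i z))).1 h2 i (Finset.mem_univ i)
    exact pow_eq_zero_iff (two_ne_zero) |>.1 this
  obtain ⟨τ, hτ, hτT⟩ : ∃ τ : ℝ, 0 < τ ∧ ∀ z, m z = 0 → τ < T z := by
    by_cases hne : ({z | m z = 0} : Set Z).Nonempty
    · have hcomp : IsCompact ({z | m z = 0} : Set Z) :=
        (isClosed_singleton.preimage hmc).isCompact
      obtain ⟨z0, hz0, hmin⟩ := hcomp.exists_isMinOn hne hTc.continuousOn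
      have h0 : 0 < T z0 := hT z0 (hmz z0 hz0).1 (hmz z0 hz0).2
      refine ⟨T z0 / 2, by linarith, fun z hz => ?_⟩
      have := hmin hz
      have h3 : T z0 ≤ T z := this
      linarith
    · refine ⟨1, one_pos, fun z hz => ?_⟩
      exact absurd ⟨z, hz⟩ hne
  obtain ⟨μ, hμ, hμm⟩ : ∃ μ : ℝ, 0 < μ ∧ ∀ z, T z ≤ τ → μ ≤ m z := by
    by_cases hne : ({z | T z ≤ τ} : Set Z).Nonempty
    · have hcomp : IsCompact ({z | T z ≤ τ} : Set Z) :=
        (isClosed_Iic.preimage hTc).isCompact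
      obtain ⟨z0, hz0, hmin⟩ := hcomp.exists_isMinOn hne hmc.continuousOn
      have h0 : 0 < m z0 := by
        rcases (hm0 z0).lt_or_eq with h | h
        · exact h
        · have := hτT z0 h.symm
          have h2 : T z0 ≤ τ := hz0
          linarith
      exact ⟨m z0, h0, fun z hz => hmin hz⟩
    · exact ⟨1, one_pos, fun z hz => absurd ⟨z, hz⟩ hne⟩
  -- bound for `T`
  obtain ⟨B, hB⟩ : ∃ B : ℝ, ∀ z, |T z| ≤ B := by
    obtain ⟨B, hB⟩ := (isCompact_univ (X := Z)).exists_bound_of_continuousOn hTc.continuousOn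
    exact ⟨B, fun z => hB z (Set.mem_univ z)⟩
  have hB0 : 0 ≤ B := (abs_nonneg _).trans (hB hZ.some)
  obtain ⟨c0, hc0, hc0c⟩ : ∃ c0 : ℝ, 0 < c0 ∧ ∀ i, c0 ≤ c i := by
    rcases isEmpty_or_nonempty ι with hι | hι
    · exact ⟨1, one_pos, fun i => (hι.false i).elim⟩
    · obtain ⟨i0, hi0⟩ := Finite.exists_min c
      exact ⟨c i0, hc i0, hi0⟩
  set D : ℝ := |C| with hD
  have hD0 : 0 ≤ D := abs_nonneg _
  have hCD : C ≤ D := le_abs_self _
  set N : ℝ := (Fintype.card ι : ℝ) with hN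
  have hN0 : 0 ≤ N := Nat.cast_nonneg _
  set E1 : ℝ := B + D + 1 with hE1
  set E2 : ℝ := c0 * N * D ^ 2 + B + D + 1 with hE2
  have hE1p : 0 < E1 := by positivity
  have hE2p : 0 < E2 := by positivity
  refine ⟨min 1 (min (μ / (4 * E1)) (min (c0 * μ / (8 * E2)) (τ / (2 * (D + 1))))), ?_, ?_⟩
  · have h1 : 0 < μ / (4 * E1) := by positivity
    have h2 : 0 < c0 * μ / (8 * E2) := by positivity
    have h3 : 0 < τ / (2 * (D + 1)) := by positivity
    exact lt_min one_pos (lt_min h1 (lt_min h2 h3))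
  · intro ε hε hle z
    have e1 : ε ≤ 1 := hle.trans (min_le_left _ _)
    have e2 : ε ≤ μ / (4 * E1) := hle.trans ((min_le_right _ _).trans (min_le_left _ _))
    have e3 : ε ≤ c0 * μ / (8 * E2) :=
      hle.trans ((min_le_right _ _).trans ((min_le_right _ _).trans (min_le_left _ _)))
    have e4 : ε ≤ τ / (2 * (D + 1)) :=
      hle.trans ((min_le_right _ _).trans ((min_le_right _ _).trans (min_le_right _ _)))
    have e2' : ε * E1 ≤ μ / 4 := by
      have := mul_le_mul_of_nonneg_right e2 hE1p.le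
      calc ε * E1 ≤ μ / (4 * E1) * E1 := this
        _ = μ / 4 := by field_simp
    have e3' : ε * E2 ≤ c0 * μ / 8 := by
      have := mul_le_mul_of_nonneg_right e3 hE2p.le
      calc ε * E2 ≤ c0 * μ / (8 * E2) * E2 := this
        _ = c0 * μ / 8 := by field_simp
    have e4' : ε * (D + 1) ≤ τ / 2 := by
      have := mul_le_mul_of_nonneg_right e4 (by positivity : 0 ≤ D + 1)
      calc ε * (D + 1) ≤ τ / (2 * (D + 1)) * (D + 1) := this
        _ = τ / 2 := by field_simp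
    have hPz := hP ε z hε e1
    have hsq : 0 ≤ ∑ i, c i * (q i z + ε * r i ε z) ^ 2 :=
      Finset.sum_nonneg fun i _ => mul_nonneg (hc i).le (sq_nonneg _)
    have hSz := hS z
    have hTz := abs_le.1 (hB z)
    have p2 : 0 < ε ^ 2 := by positivity
    have p3 : 0 < ε ^ 3 := by positivity
    have p4 : 0 < ε ^ 4 := by positivity
    have hC4 : C * ε ^ 4 ≤ D * ε ^ 4 := mul_le_mul_of_nonneg_right hCD p4.le
    by_cases hTτ : T z ≤ τ
    · have hμz := hμm z hTτ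
      have q3 : ε ^ 3 * T z ≥ - (ε ^ 3 * B) := by nlinarith
      have q4 : ε ^ 4 ≤ ε ^ 3 := by
        calc ε ^ 4 = ε ^ 3 * ε := by ring
          _ ≤ ε ^ 3 * 1 := mul_le_mul_of_nonneg_left e1 p3.le
          _ = ε ^ 3 := mul_one _
      have q5 : D * ε ^ 4 ≤ D * ε ^ 3 := mul_le_mul_of_nonneg_left q4 hD0
      by_cases hSμ : μ / 2 ≤ S z
      · have q1 : ε ^ 2 * (μ / 2) ≤ ε ^ 2 * S z := mul_le_mul_of_nonneg_left hSμ p2.le
        have q2 : ε ^ 3 * E1 ≤ ε ^ 2 * (μ / 4) := by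
          calc ε ^ 3 * E1 = ε ^ 2 * (ε * E1) := by ring
            _ ≤ ε ^ 2 * (μ / 4) := mul_le_mul_of_nonneg_left e2' p2.le
        have q6 : ε ^ 3 * B + D * ε ^ 3 ≤ ε ^ 3 * E1 := by rw [hE1]; nlinarith
        have q7 : 0 < ε ^ 2 * (μ / 4) := by positivity
        linarith
      · have hSμ' : S z < μ / 2 := not_le.1 hSμ
        have hq2 : μ / 2 ≤ ∑ i, q i z ^ 2 := by
          simp only [hm] at hμz
          linarith
        have q1 : c0 * (μ / 4) - c0 * N * D ^ 2 * ε ^ 2 ≤ ∑ i, c i * (q i z + ε * r i ε z) ^ 2 := by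
          have h1 : ∑ i, c0 * (q i z ^ 2 / 2 - ε ^ 2 * D ^ 2) ≤
              ∑ i, c i * (q i z + ε * r i ε z) ^ 2 := by
            refine Finset.sum_le_sum fun i _ => ?_
            have hri : |r i ε z| ≤ D := (hr i ε z hε e1).trans hCD
            have hri2 : r i ε z ^ 2 ≤ D ^ 2 := by
              rw [← sq_abs (r i ε z)]
              exact pow_le_pow_left₀ (abs_nonneg _) hri 2
            have h2 : q i z ^ 2 / 2 - ε ^ 2 * D ^ 2 ≤ (q i z + ε * r i ε z) ^ 2 := by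
              have h3 : ε ^ 2 * r i ε z ^ 2 ≤ ε ^ 2 * D ^ 2 := mul_le_mul_of_nonneg_left hri2 p2.le
              nlinarith [sq_nonneg (q i z + 2 * (ε * r i ε z))]
            calc c0 * (q i z ^ 2 / 2 - ε ^ 2 * D ^ 2) ≤ c0 * (q i z + ε * r i ε z) ^ 2 :=
                  mul_le_mul_of_nonneg_left h2 hc0.le
              _ ≤ c i * (q i z + ε * r i ε z) ^ 2 :=
                  mul_le_mul_of_nonneg_right (hc0c i) (sq_nonneg _)
          refine le_trans ?_ h1
          rw [← Finset.mul_sum, Finset.sum_sub_distrib, ← Finset.sum_div, Finset.sum_const,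
            Finset.card_univ, nsmul_eq_mul]
          have h4 : c0 * (μ / 4) ≤ c0 * ((∑ i, q i z ^ 2) / 2) :=
            mul_le_mul_of_nonneg_left (by linarith) hc0.le
          have h5 : c0 * ((∑ i, q i z ^ 2) / 2 - N * (ε ^ 2 * D ^ 2)) =
              c0 * ((∑ i, q i z ^ 2) / 2) - c0 * N * D ^ 2 * ε ^ 2 := by ring
          rw [← hN, h5]
          linarith
        have q2 : ε ^ 2 ≤ ε := by nlinarith
        have q8 : ε ^ 3 ≤ ε := by nlinarith
        have q9 : c0 * N * D ^ 2 * ε ^ 2 ≤ c0 * N * D ^ 2 * ε :=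
          mul_le_mul_of_nonneg_left q2 (by positivity)
        have q10 : ε ^ 3 * B + D * ε ^ 3 ≤ ε * B + D * ε := by nlinarith
        have q11 : c0 * N * D ^ 2 * ε + (ε * B + D * ε) ≤ ε * E2 := by rw [hE2]; nlinarith
        have q12 : 0 < c0 * μ := by positivity
        have q13 : 0 ≤ ε ^ 2 * S z := mul_nonneg p2.le hSz
        linarith
    · have hTτ' : τ < T z := not_le.1 hTτ
      have q1 : ε ^ 3 * τ ≤ ε ^ 3 * T z := mul_le_mul_of_nonneg_left hTτ'.le p3.le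
      have q2 : D * ε ^ 4 ≤ ε ^ 3 * (τ / 2) := by
        calc D * ε ^ 4 ≤ (D + 1) * ε ^ 4 := by nlinarith
          _ = ε ^ 3 * (ε * (D + 1)) := by ring
          _ ≤ ε ^ 3 * (τ / 2) := mul_le_mul_of_nonneg_left e4' p3.le
      have q3 : 0 ≤ ε ^ 2 * S z := mul_nonneg p2.le hSz
      have q4 : 0 < ε ^ 3 * τ := by positivity
      linarith

/-- Second order version: `P_ε = Σ c_i (q_i + ε r_i)² + ε² S - C ε³` with `S > 0` on `{q = 0}`. -/
theorem pos_small2 {Z ι : Type*} [TopologicalSpace Z] [CompactSpace Z] [Fintype ι]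
    (c : ι → ℝ) (hc : ∀ i, 0 < c i) (q : ι → Z → ℝ) (hq : ∀ i, Continuous (q i))
    (r : ι → ℝ → Z → ℝ) (S : Z → ℝ) (hSc : Continuous S)
    (hS : ∀ z, (∀ i, q i z = 0) → 0 < S z)
    (P : ℝ → Z → ℝ) (C : ℝ) (hr : ∀ i ε z, 0 < ε → ε ≤ 1 → |r i ε z| ≤ C)
    (hP : ∀ ε z, 0 < ε → ε ≤ 1 → ∑ i, c i * (q i z + ε * r i ε z) ^ 2 + ε ^ 2 * S z - C * ε ^ 3
      ≤ P ε z) :
    ∃ ε₀ : ℝ, 0 < ε₀ ∧ ∀ ε, 0 < ε → ε ≤ ε₀ → ∀ z, 0 < P ε z := by
  classical
  rcases isEmpty_or_nonempty Z with hZ | hZ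
  · exact ⟨1, one_pos, fun ε _ _ z => (hZ.false z).elim⟩
  set m : Z → ℝ := fun z => ∑ i, q i z ^ 2 with hm
  have hmc : Continuous m := continuous_finsetSum _ fun i _ => (hq i).pow 2
  have hm0 : ∀ z, 0 ≤ m z := fun z => Finset.sum_nonneg fun i _ => sq_nonneg _
  have hmz : ∀ z, m z = 0 → ∀ i, q i z = 0 := by
    intro z hz i
    have := (Finset.sum_eq_zero_iff_of_nonneg (fun i _ => sq_nonneg (q i z))).1 hz i (Finset.mem_univ i)
    exact pow_eq_zero_iff (two_ne_zero) |>.1 this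
  obtain ⟨τ, hτ, hτT⟩ : ∃ τ : ℝ, 0 < τ ∧ ∀ z, m z = 0 → τ < S z := by
    by_cases hne : ({z | m z = 0} : Set Z).Nonempty
    · have hcomp : IsCompact ({z | m z = 0} : Set Z) :=
        (isClosed_singleton.preimage hmc).isCompact
      obtain ⟨z0, hz0, hmin⟩ := hcomp.exists_isMinOn hne hSc.continuousOn
      have h0 : 0 < S z0 := hS z0 (hmz z0 hz0)
      refine ⟨S z0 / 2, by linarith, fun z hz => ?_⟩
      have : S z0 ≤ S z := hmin hz
      linarith
    · refine ⟨1, one_pos, fun z hz => ?_⟩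
      exact absurd ⟨z, hz⟩ hne
  obtain ⟨μ, hμ, hμm⟩ : ∃ μ : ℝ, 0 < μ ∧ ∀ z, S z ≤ τ → μ ≤ m z := by
    by_cases hne : ({z | S z ≤ τ} : Set Z).Nonempty
    · have hcomp : IsCompact ({z | S z ≤ τ} : Set Z) :=
        (isClosed_Iic.preimage hSc).isCompact
      obtain ⟨z0, hz0, hmin⟩ := hcomp.exists_isMinOn hne hmc.continuousOn
      have h0 : 0 < m z0 := by
        rcases (hm0 z0).lt_or_eq with h | h
        · exact h
        · have := hτT z0 h.symm
          have h2 : S z0 ≤ τ := hz0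
          linarith
      exact ⟨m z0, h0, fun z hz => hmin hz⟩
    · exact ⟨1, one_pos, fun z hz => absurd ⟨z, hz⟩ hne⟩
  obtain ⟨B, hB⟩ : ∃ B : ℝ, ∀ z, |S z| ≤ B := by
    obtain ⟨B, hB⟩ := (isCompact_univ (X := Z)).exists_bound_of_continuousOn hSc.continuousOn
    exact ⟨B, fun z => hB z (Set.mem_univ z)⟩
  have hB0 : 0 ≤ B := (abs_nonneg _).trans (hB hZ.some)
  obtain ⟨c0, hc0, hc0c⟩ : ∃ c0 : ℝ, 0 < c0 ∧ ∀ i, c0 ≤ c i := by
    rcases isEmpty_or_nonempty ι with hι | hι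
    · exact ⟨1, one_pos, fun i => (hι.false i).elim⟩
    · obtain ⟨i0, hi0⟩ := Finite.exists_min c
      exact ⟨c i0, hc i0, hi0⟩
  set D : ℝ := |C| with hD
  have hD0 : 0 ≤ D := abs_nonneg _
  have hCD : C ≤ D := le_abs_self _
  set N : ℝ := (Fintype.card ι : ℝ) with hN
  have hN0 : 0 ≤ N := Nat.cast_nonneg _
  set E2 : ℝ := c0 * N * D ^ 2 + B + D + 1 with hE2
  have hE2p : 0 < E2 := by positivity
  refine ⟨min 1 (min (c0 * μ / (8 * E2)) (τ / (2 * (D + 1)))), ?_, ?_⟩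
  · have h2 : 0 < c0 * μ / (8 * E2) := by positivity
    have h3 : 0 < τ / (2 * (D + 1)) := by positivity
    exact lt_min one_pos (lt_min h2 h3)
  · intro ε hε hle z
    have e1 : ε ≤ 1 := hle.trans (min_le_left _ _)
    have e3 : ε ≤ c0 * μ / (8 * E2) := hle.trans ((min_le_right _ _).trans (min_le_left _ _))
    have e4 : ε ≤ τ / (2 * (D + 1)) := hle.trans ((min_le_right _ _).trans (min_le_right _ _))
    have e3' : ε * E2 ≤ c0 * μ / 8 := by
      have := mul_le_mul_of_nonneg_right e3 hE2p.le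
      calc ε * E2 ≤ c0 * μ / (8 * E2) * E2 := this
        _ = c0 * μ / 8 := by field_simp
    have e4' : ε * (D + 1) ≤ τ / 2 := by
      have := mul_le_mul_of_nonneg_right e4 (by positivity : 0 ≤ D + 1)
      calc ε * (D + 1) ≤ τ / (2 * (D + 1)) * (D + 1) := this
        _ = τ / 2 := by field_simp
    have hPz := hP ε z hε e1
    have hsq : 0 ≤ ∑ i, c i * (q i z + ε * r i ε z) ^ 2 :=
      Finset.sum_nonneg fun i _ => mul_nonneg (hc i).le (sq_nonneg _)
    have hTz := abs_le.1 (hB z)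
    have p2 : 0 < ε ^ 2 := by positivity
    have p3 : 0 < ε ^ 3 := by positivity
    have hC4 : C * ε ^ 3 ≤ D * ε ^ 3 := mul_le_mul_of_nonneg_right hCD p3.le
    by_cases hTτ : S z ≤ τ
    · have hμz := hμm z hTτ
      have q3 : ε ^ 2 * S z ≥ - (ε ^ 2 * B) := by nlinarith
      have q1 : c0 * (μ / 2) - c0 * N * D ^ 2 * ε ^ 2 ≤ ∑ i, c i * (q i z + ε * r i ε z) ^ 2 := by
        have h1 : ∑ i, c0 * (q i z ^ 2 / 2 - ε ^ 2 * D ^ 2) ≤
            ∑ i, c i * (q i z + ε * r i ε z) ^ 2 := by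
          refine Finset.sum_le_sum fun i _ => ?_
          have hri : |r i ε z| ≤ D := (hr i ε z hε e1).trans hCD
          have hri2 : r i ε z ^ 2 ≤ D ^ 2 := by
            rw [← sq_abs (r i ε z)]
            exact pow_le_pow_left₀ (abs_nonneg _) hri 2
          have h2 : q i z ^ 2 / 2 - ε ^ 2 * D ^ 2 ≤ (q i z + ε * r i ε z) ^ 2 := by
            have h3 : ε ^ 2 * r i ε z ^ 2 ≤ ε ^ 2 * D ^ 2 := mul_le_mul_of_nonneg_left hri2 p2.le
            nlinarith [sq_nonneg (q i z + 2 * (ε * r i ε z))]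
          calc c0 * (q i z ^ 2 / 2 - ε ^ 2 * D ^ 2) ≤ c0 * (q i z + ε * r i ε z) ^ 2 :=
                mul_le_mul_of_nonneg_left h2 hc0.le
            _ ≤ c i * (q i z + ε * r i ε z) ^ 2 :=
                mul_le_mul_of_nonneg_right (hc0c i) (sq_nonneg _)
        refine le_trans ?_ h1
        rw [← Finset.mul_sum, Finset.sum_sub_distrib, ← Finset.sum_div, Finset.sum_const,
          Finset.card_univ, nsmul_eq_mul]
        have h4 : c0 * (μ / 2) ≤ c0 * ((∑ i, q i z ^ 2) / 2) :=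
          mul_le_mul_of_nonneg_left (by linarith) hc0.le
        have h5 : c0 * ((∑ i, q i z ^ 2) / 2 - N * (ε ^ 2 * D ^ 2)) =
            c0 * ((∑ i, q i z ^ 2) / 2) - c0 * N * D ^ 2 * ε ^ 2 := by ring
        rw [← hN, h5]
        linarith
      have q2 : ε ^ 2 ≤ ε := by nlinarith
      have q8 : ε ^ 3 ≤ ε := by nlinarith
      have q9 : c0 * N * D ^ 2 * ε ^ 2 ≤ c0 * N * D ^ 2 * ε :=
        mul_le_mul_of_nonneg_left q2 (by positivity)
      have q10 : ε ^ 2 * B + D * ε ^ 3 ≤ ε * B + D * ε := by nlinarith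
      have q11 : c0 * N * D ^ 2 * ε + (ε * B + D * ε) ≤ ε * E2 := by rw [hE2]; nlinarith
      have q12 : 0 < c0 * μ := by positivity
      linarith
    · have hTτ' : τ < S z := not_le.1 hTτ
      have q1 : ε ^ 2 * τ ≤ ε ^ 2 * S z := mul_le_mul_of_nonneg_left hTτ'.le p2.le
      have q2 : D * ε ^ 3 ≤ ε ^ 2 * (τ / 2) := by
        calc D * ε ^ 3 ≤ (D + 1) * ε ^ 3 := by nlinarith
          _ = ε ^ 2 * (ε * (D + 1)) := by ring
          _ ≤ ε ^ 2 * (τ / 2) := mul_le_mul_of_nonneg_left e4' p2.le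
      have q4 : 0 < ε ^ 2 * τ := by positivity
      linarith

end H907H
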