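import Pool.Agent.H907R2.HO.Mario
import Pool.Agent.H907R2.HO.GDefs
import Pool.Agent.H821R2.PinchAlg

/-!
ROOM HO (helper907): curvature of a metric on `S^m × S^n` given by a cometric, in terms of Fréchet
derivatives in `ℝ^(m+1) × ℝ^(n+1)`.
-/

open Bundle Manifold ContDiff VectorField Filter Metric
open scoped Topology

set_option linter.unusedSectionVars false

noncomputable section

namespace H907G

open Pool.Agent.H821R2 Pool.Agent.H821R3 Pool.Agent.H821R5 H907H

variable {m n : ℕ}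

open scoped RealInnerProductSpace

theorem pr_comm (a b : (AA m n)) : pr a b = pr b a := by
  simp only [pr]
  rw [real_inner_comm, real_inner_comm a.2 b.2]

theorem pr_add_left (a b c : (AA m n)) : pr (a + b) c = pr a c + pr b c := by
  simp only [pr, Prod.fst_add, Prod.snd_add, inner_add_left]; ring

theorem pr_smul_left (r : ℝ) (a c : (AA m n)) : pr (r • a) c = r * pr a c := by
  simp only [pr, Prod.smul_fst, Prod.smul_snd, inner_smul_left]
  simp
  ring

theorem pr_sub_left (a b c : (AA m n)) : pr (a - b) c = pr a c - pr b c := by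
  simp only [pr, Prod.fst_sub, Prod.snd_sub, inner_sub_left]; ring

theorem pr_add_right (a b c : (AA m n)) : pr a (b + c) = pr a b + pr a c := by
  rw [pr_comm, pr_add_left, pr_comm b, pr_comm c]

theorem pr_sub_right (a b c : (AA m n)) : pr a (b - c) = pr a b - pr a c := by
  rw [pr_comm, pr_sub_left, pr_comm b, pr_comm c]

theorem pr_smul_right (r : ℝ) (a c : (AA m n)) : pr a (r • c) = r * pr a c := by
  rw [pr_comm, pr_smul_left, pr_comm]

/-- the pairing as a continuous linear map -/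
def prL (a : (AA m n)) : (AA m n) →L[ℝ] ℝ :=
  (innerSL ℝ a.1).comp (ContinuousLinearMap.fst ℝ (EV (m + 1)) (EV (n + 1))) +
    (innerSL ℝ a.2).comp (ContinuousLinearMap.snd ℝ (EV (m + 1)) (EV (n + 1)))

@[simp] theorem prL_apply (a b : (AA m n)) : prL a b = pr a b := rfl

/-- the vector representing a linear functional -/
def rep (L : (AA m n) →L[ℝ] ℝ) : (AA m n) :=
  ((InnerProductSpace.toDual ℝ (EV (m + 1))).symm (L.comp (ContinuousLinearMap.inl ℝ (EV (m + 1)) (EV (n + 1)))),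
    (InnerProductSpace.toDual ℝ (EV (n + 1))).symm (L.comp (ContinuousLinearMap.inr ℝ (EV (m + 1)) (EV (n + 1)))))

theorem pr_rep (L : (AA m n) →L[ℝ] ℝ) (v : (AA m n)) : pr (rep L) v = L v := by
  simp only [pr, rep, InnerProductSpace.toDual_symm_apply]
  simp only [ContinuousLinearMap.coe_comp, Function.comp_apply, ContinuousLinearMap.inl_apply,
    ContinuousLinearMap.inr_apply]
  rw [← map_add]
  congr 1
  ext <;> simp

theorem contMDiff_zz : ContMDiff (IM m n) 𝓘(ℝ, (AA m n)) ∞ (zz (m := m) (n := n)) :=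
  contMDiff_P1.prodMk_space contMDiff_P2

theorem d_zz (p : MM m n) (v : TangentSpace (IM m n) p) : mvfderiv (IM m n) zz p v = dd p v := by
  have h : MDifferentiableAt (IM m n) 𝓘(ℝ, (AA m n)) zz p := contMDiff_zz.mdifferentiableAt (by simp)
  have h1 := d_clm (ContinuousLinearMap.fst ℝ (EV (m + 1)) (EV (n + 1))) h v
  have h2 := d_clm (ContinuousLinearMap.snd ℝ (EV (m + 1)) (EV (n + 1))) h v
  refine Prod.ext ?_ ?_
  · exact h1.symm
  · exact h2.symm

theorem d_comp {F : Type*} [NormedAddCommGroup F] [NormedSpace ℝ F] {G : (AA m n) → F}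
    (p : MM m n) (hG : DifferentiableAt ℝ G (zz p)) (v : TangentSpace (IM m n) p) :
    mvfderiv (IM m n) (fun q => G (zz q)) p v = fderiv ℝ G (zz p) (dd p v) := by
  have h : MDifferentiableAt (IM m n) 𝓘(ℝ, (AA m n)) zz p := contMDiff_zz.mdifferentiableAt (by simp)
  have h2 := mfderiv_comp p (g := G) (f := zz) (I := IM m n) (I' := 𝓘(ℝ, (AA m n))) (I'' := 𝓘(ℝ, F))
    hG.mdifferentiableAt h
  rw [mfderiv_eq_fderiv] at h2
  rw [← d_zz]
  exact congrArg (fun T => T v) h2

theorem norm_zz1 (p : MM m n) : ‖(zz p).1‖ = 1 := norm_P1 p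

theorem norm_zz2 (p : MM m n) : ‖(zz p).2‖ = 1 := norm_P2 p

theorem dd_inj (p : MM m n) {v w : TangentSpace (IM m n) p} (h : dd p v = dd p w) : v = w :=
  d_inj p (congrArg Prod.fst h) (congrArg Prod.snd h)

theorem smooth_comp {G : (AA m n) → ℝ} (hG : ContDiff ℝ ∞ G) : Sm (IM m n) (fun q => G (zz q)) :=
  hG.contMDiff.comp contMDiff_zz

/-- directional derivative along the field `W a` -/
def Dir (W : (AA m n) → (AA m n) →L[ℝ] (AA m n)) (a : (AA m n)) (G : (AA m n) → ℝ) : (AA m n) → ℝ := fun z => fderiv ℝ G z (W z a)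

/-- the function `⟨a, W b⟩` -/
def FF (W : (AA m n) → (AA m n) →L[ℝ] (AA m n)) (a b : (AA m n)) : (AA m n) → ℝ := fun z => pr a (W z b)

/-- the bracket of the fields `W a`, `W b` -/
def Br (W : (AA m n) → (AA m n) →L[ℝ] (AA m n)) (a b : (AA m n)) (z : (AA m n)) : (AA m n) :=
  fderiv ℝ (fun y => W y b) z (W z a) - fderiv ℝ (fun y => W y a) z (W z b)

/-- The polynomial whose positivity is positive curvature. -/
def Pexp (W : (AA m n) → (AA m n) →L[ℝ] (AA m n)) (z a b γ : (AA m n)) : ℝ :=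
  1 / 2 * Dir W a (Dir W a (FF W b b)) z + 1 / 2 * Dir W b (Dir W b (FF W a a)) z -
    1 / 2 * (Dir W a (Dir W b (FF W a b)) z + Dir W b (Dir W a (FF W a b)) z) -
    1 / 4 * fderiv ℝ (FF W a a) z (W z (rep (fderiv ℝ (FF W b b) z))) +
    1 / 4 * fderiv ℝ (FF W a b) z (W z (rep (fderiv ℝ (FF W a b) z))) +
    3 / 4 * (pr γ (W z γ) - 2 * pr γ (Br W a b z))

section

variable {W : (AA m n) → (AA m n) →L[ℝ] (AA m n)} (hW : Cometric W)

include hW

theorem Cometric.smoothAp (a : (AA m n)) : ContDiff ℝ ∞ (fun z => W z a) := hW.smooth.clm_apply contDiff_const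

theorem Cometric.smoothFF (a b : (AA m n)) : ContDiff ℝ ∞ (FF W a b) :=
  (prL a).contDiff.comp (hW.smoothAp b)

theorem Cometric.smoothDir (a : (AA m n)) {G : (AA m n) → ℝ} (hG : ContDiff ℝ ∞ G) : ContDiff ℝ ∞ (Dir W a G) :=
  (hG.fderiv_right (m := ∞) (by simp)).clm_apply (hW.smoothAp a)

theorem exists_X (a : (AA m n)) : ∃ X : Π p : MM m n, TangentSpace (IM m n) p, SmV X ∧
    ∀ p, dd p (X p) = W (zz p) a := by
  have hs : ContMDiff (IM m n) 𝓘(ℝ, (AA m n)) ∞ (fun p => W (zz p) a) :=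
    (hW.smoothAp a).contMDiff.comp contMDiff_zz
  obtain ⟨X, hX, h⟩ := exists_field (A := fun p => (W (zz p) a).1) (B := fun p => (W (zz p) a).2)
    ((ContinuousLinearMap.fst ℝ (EV (m + 1)) (EV (n + 1))).contMDiff.comp hs)
    ((ContinuousLinearMap.snd ℝ (EV (m + 1)) (EV (n + 1))).contMDiff.comp hs)
    (fun p => hW.tan1 (zz p) (norm_zz1 p) (norm_zz2 p) a)
    (fun p => hW.tan2 (zz p) (norm_zz1 p) (norm_zz2 p) a)
  exact ⟨X, hX, fun p => Prod.ext (h p).1 (h p).2⟩

theorem der_comp {X : Π p : MM m n, TangentSpace (IM m n) p} {a : (AA m n)} (hX : ∀ p, dd p (X p) = W (zz p) a)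
    {G : (AA m n) → ℝ} (hG : ContDiff ℝ ∞ G) :
    der X (fun q => G (zz q)) = fun q => Dir W a G (zz q) := by
  ext p
  rw [der_apply, d_comp p (hG.differentiable (by simp) _), hX]
  rfl

variable {g : ContMDiffRiemannianMetric (IM m n) ∞ (EM m n)
    (fun x : MM m n => TangentSpace (IM m n) x)} (hg : IsDual g W)

include hg

theorem gi_X {X Y : Π p : MM m n, TangentSpace (IM m n) p} {a b : (AA m n)} (hX : ∀ p, dd p (X p) = W (zz p) a)
    (hY : ∀ p, dd p (Y p) = W (zz p) b) : gi g X Y = fun q => FF W a b (zz q) := by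
  ext p
  change g.inner p (X p) (Y p) = _
  rw [hg p a (X p) (hX p), hY]
  rfl

theorem grad_X [Nontrivial (EM m n)] {X : Π p : MM m n, TangentSpace (IM m n) p} {a : (AA m n)} (hX : ∀ p, dd p (X p) = W (zz p) a) :
    IsGrad g X (fun q => prL a (zz q)) := by
  intro p z
  rw [hg p a (X p) (hX p), d_comp p (prL a).differentiableAt, ContinuousLinearMap.fderiv]
  rfl

theorem bracket_X [Nontrivial (EM m n)] {X Y : Π p : MM m n, TangentSpace (IM m n) p} {a b : (AA m n)} (hXs : SmV X) (hYs : SmV Y)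
    (hX : ∀ p, dd p (X p) = W (zz p) a)
    (hY : ∀ p, dd p (Y p) = W (zz p) b) (p : MM m n) :
    dd p (mlieBracket (IM m n) X Y p) = Br W a b (zz p) := by
  have key : ∀ e : (AA m n), pr e (dd p (mlieBracket (IM m n) X Y p)) = pr e (Br W a b (zz p)) := by
    intro e
    have hs : Sm (IM m n) (fun q => prL e (zz q)) := smooth_comp (prL e).contDiff
    have h1 := comm_fun hs hXs hYs (Sm.der hXs hs) (Sm.der hYs hs) p
    rw [d_comp p (prL e).differentiableAt, ContinuousLinearMap.fderiv] at h1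
    have e1 : der X (fun q => prL e (zz q)) = fun q => FF W e a (zz q) := by
      rw [der_comp hW hX (prL e).contDiff]
      ext q
      simp only [Dir, ContinuousLinearMap.fderiv]
      rfl
    have e2 : der Y (fun q => prL e (zz q)) = fun q => FF W e b (zz q) := by
      rw [der_comp hW hY (prL e).contDiff]
      ext q
      simp only [Dir, ContinuousLinearMap.fderiv]
      rfl
    have h2 : mvfderiv (IM m n) (der Y (fun q => prL e (zz q))) p (X p) -
        mvfderiv (IM m n) (der X (fun q => prL e (zz q))) p (Y p)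
        = pr e (dd p (mlieBracket (IM m n) X Y p)) := h1
    rw [e1, e2, d_comp p ((hW.smoothFF e b).differentiable (by simp) _),
      d_comp p ((hW.smoothFF e a).differentiable (by simp) _), hX, hY] at h2
    rw [← h2, Br, pr_sub_right]
    have h3 : ∀ c : (AA m n), fderiv ℝ (FF W e c) (zz p) = (prL e).comp (fderiv ℝ (fun y => W y c) (zz p)) := by
      intro c
      have : FF W e c = fun y => prL e ((fun y => W y c) y) := rfl
      rw [this]
      exact ((prL e).hasFDerivAt.comp (zz p)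
        ((hW.smoothAp c).differentiable (by simp) (zz p)).hasFDerivAt).fderiv
    rw [h3, h3]
    rfl
  -- conclude by testing with basis
  have h0 : ∀ u v : (AA m n), (∀ e, pr e u = pr e v) → u = v := by
    intro u v h
    refine Prod.ext ?_ ?_
    · refine ext_inner_left ℝ fun e => ?_
      have := h (e, 0)
      simpa [pr] using this
    · refine ext_inner_left ℝ fun e => ?_
      have := h (0, e)
      simpa [pr] using this
  exact h0 _ _ key

/-- every tangent vector is `W a` for a tangent `a` -/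
theorem exists_cov (p : MM m n) (v : TangentSpace (IM m n) p) : ∃ a : (AA m n), ⟪(zz p).1, a.1⟫ = 0 ∧
    ⟪(zz p).2, a.2⟫ = 0 ∧ W (zz p) a = dd p v := by
  classical
  -- the tangent space as a submodule
  let T : Submodule ℝ (AA m n) :=
    { carrier := {a | ⟪(zz p).1, a.1⟫ = 0 ∧ ⟪(zz p).2, a.2⟫ = 0}
      zero_mem' := by simp
      add_mem' := by
        rintro a b ⟨h1, h2⟩ ⟨h3, h4⟩
        exact ⟨by rw [Prod.fst_add, inner_add_right, h1, h3, add_zero],
          by rw [Prod.snd_add, inner_add_right, h2, h4, add_zero]⟩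
      smul_mem' := by
        rintro c a ⟨h1, h2⟩
        exact ⟨by rw [Prod.smul_fst, inner_smul_right, h1, mul_zero],
          by rw [Prod.smul_snd, inner_smul_right, h2, mul_zero]⟩ }
  let f : T →ₗ[ℝ] T :=
    { toFun := fun a => ⟨W (zz p) a.1, hW.tan1 _ (norm_zz1 p) (norm_zz2 p) _,
        hW.tan2 _ (norm_zz1 p) (norm_zz2 p) _⟩
      map_add' := fun a b => Subtype.ext (map_add _ _ _)
      map_smul' := fun c a => Subtype.ext (map_smul _ _ _) }
  have hinj : Function.Injective f := by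
    rw [← LinearMap.ker_eq_bot, LinearMap.ker_eq_bot']
    intro a ha
    by_contra hne
    have h1 := hW.pos (zz p) (norm_zz1 p) (norm_zz2 p) a.1 a.2.1 a.2.2
      (fun h => hne (Subtype.ext h))
    have h2 : W (zz p) a.1 = 0 := congrArg Subtype.val ha
    rw [h2] at h1
    simp [pr] at h1
  have hsurj : Function.Surjective f := LinearMap.injective_iff_surjective.1 hinj
  have hv : dd p v ∈ T := ⟨d1_orth p v, d2_orth p v⟩
  obtain ⟨a, ha⟩ := hsurj ⟨dd p v, hv⟩
  exact ⟨a.1, a.2.1, a.2.2, congrArg Subtype.val ha⟩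

variable {cov : CovariantDerivative (IM m n) (EM m n)
    (TangentSpace (IM m n) : MM m n → Type _)} (h : IsLeviCivita g cov) {R : CurvField (IM m n) (MM m n)}
    (hR : IsRiemannTensor cov R)

include h hR

/-- the curvature in terms of the cometric -/
theorem curv_eq [Nontrivial (EM m n)] (p : MM m n) (a b : (AA m n)) (u v : TangentSpace (IM m n) p) (hu : dd p u = W (zz p) a)
    (hv : dd p v = W (zz p) b) :
    ∃ γ : (AA m n), ⟪(zz p).1, γ.1⟫ = 0 ∧ ⟪(zz p).2, γ.2⟫ = 0 ∧ W (zz p) γ = Br W a b (zz p) ∧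
      g.inner p (R p u v v) u = Pexp W (zz p) a b γ := by
  obtain ⟨X, hXs, hX⟩ := exists_X hW a
  obtain ⟨Y, hYs, hY⟩ := exists_X hW b
  have hu' : u = X p := dd_inj p (by rw [hu, hX])
  have hv' : v = Y p := dd_inj p (by rw [hv, hY])
  subst hu' hv'
  -- gradients
  have hgrad : ∀ G : (AA m n) → ℝ, ContDiff ℝ ∞ G → ∃ c : TangentSpace (IM m n) p,
      (∀ z, g.inner p c z = mvfderiv (IM m n) (fun q => G (zz q)) p z) ∧
        dd p c = W (zz p) (rep (fderiv ℝ G (zz p))) := by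
    intro G hG
    obtain ⟨Z, -, hZ⟩ := exists_X hW (rep (fderiv ℝ G (zz p)))
    refine ⟨Z p, fun z => ?_, hZ p⟩
    rw [hg p _ (Z p) (hZ p), pr_rep, d_comp p (hG.differentiable (by simp) _)]
  obtain ⟨cA, hcA, hcA'⟩ := hgrad _ (hW.smoothFF a a)
  obtain ⟨cB, hcB, hcB'⟩ := hgrad _ (hW.smoothFF b b)
  obtain ⟨cC, hcC, hcC'⟩ := hgrad _ (hW.smoothFF a b)
  obtain ⟨γ, hγ1, hγ2, hγ⟩ := exists_cov hW hg p (mlieBracket (IM m n) X Y p)
  refine ⟨γ, hγ1, hγ2, by rw [hγ, bracket_X hW hg hXs hYs hX hY], ?_⟩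
  have hXX := gi_X hW hg hX hX
  have hYY := gi_X hW hg hY hY
  have hXY := gi_X hW hg hX hY
  have hm := mario h hR hXs hYs (smooth_comp (prL a).contDiff) (smooth_comp (prL b).contDiff)
    (grad_X hW hg hX) (grad_X hW hg hY) p (a := cA) (b := cB) (c := cC)
    (by rw [hXX]; exact hcA) (by rw [hYY]; exact hcB) (by rw [hXY]; exact hcC)
  rw [hm, hXX, hYY, hXY]
  rw [der_comp hW hX (hW.smoothFF b b), der_comp hW hX (hW.smoothDir a (hW.smoothFF b b)),
    der_comp hW hY (hW.smoothFF a a), der_comp hW hY (hW.smoothDir b (hW.smoothFF a a)),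
    der_comp hW hY (hW.smoothFF a b), der_comp hW hX (hW.smoothDir b (hW.smoothFF a b)),
    der_comp hW hX (hW.smoothFF a b), der_comp hW hY (hW.smoothDir a (hW.smoothFF a b))]
  have k1 : g.inner p cA cB = fderiv ℝ (FF W a a) (zz p) (W (zz p) (rep (fderiv ℝ (FF W b b) (zz p)))) := by
    rw [hcA, d_comp p ((hW.smoothFF a a).differentiable (by simp) _), hcB']
  have k2 : g.inner p cC cC = fderiv ℝ (FF W a b) (zz p) (W (zz p) (rep (fderiv ℝ (FF W a b) (zz p)))) := by
    rw [hcC, d_comp p ((hW.smoothFF a b).differentiable (by simp) _), hcC']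
  have k3 : g.inner p (mlieBracket (IM m n) X Y p) (mlieBracket (IM m n) X Y p) = pr γ (W (zz p) γ) := by
    rw [hg p γ _ hγ.symm, ← hγ]
  have k4 : pr γ (Br W a b (zz p)) = pr γ (W (zz p) γ) := by
    rw [← bracket_X hW hg hXs hYs hX hY, hγ]
  rw [k1, k2, k3, Pexp, k4]
  ring

theorem kappa_scale [Nontrivial (EM m n)] (p : MM m n) (r s t : ℝ) (u v : TangentSpace (IM m n) p) :
    g.inner p (R p (r • u) (s • u + t • v) (s • u + t • v)) (r • u) =
      (r * t) ^ 2 * g.inner p (R p u v v) u := by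
  let _ : RiemannianBundle (fun x : MM m n => TangentSpace (IM m n) x) := ⟨g.toRiemannianMetric⟩
  have hB : IsLeviCivitaB cov := ⟨h.smooth, h.metric, h.torsionFree⟩
  exact kap_smul_add (isCurvatureTensor hB hR p) r s t u v

/-- Positivity of the curvature expression on orthonormal pairs of covectors implies positive
sectional curvature. -/
theorem sec_pos [Nontrivial (EM m n)]
    (hpos : ∀ z a b γ : (AA m n), ‖z.1‖ = 1 → ‖z.2‖ = 1 → ⟪z.1, a.1⟫ = 0 → ⟪z.2, a.2⟫ = 0 →
      ⟪z.1, b.1⟫ = 0 → ⟪z.2, b.2⟫ = 0 → pr a a = 1 → pr b b = 1 → pr a b = 0 →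
      ⟪z.1, γ.1⟫ = 0 → ⟪z.2, γ.2⟫ = 0 → W z γ = Br W a b z → 0 < Pexp W z a b γ)
    (p : MM m n) (u v : TangentSpace (IM m n) p) (huv : OrthoPair g p u v) : 0 < sec g R p u v := by
  obtain ⟨a, ha1, ha2, ha⟩ := exists_cov hW hg p u
  obtain ⟨b, hb1, hb2, hb⟩ := exists_cov hW hg p v
  obtain ⟨huu, hvv, huv0⟩ := huv
  have pr_nonneg : ∀ c : (AA m n), 0 ≤ pr c c := fun c =>
    add_nonneg (real_inner_self_nonneg) (real_inner_self_nonneg)
  have pr_zero : ∀ c : (AA m n), pr c c = 0 → c = 0 := by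
    intro c hc
    have h1 : 0 ≤ ⟪c.1, c.1⟫ := real_inner_self_nonneg
    have h2 : 0 ≤ ⟪c.2, c.2⟫ := real_inner_self_nonneg
    have h3 : ⟪c.1, c.1⟫ + ⟪c.2, c.2⟫ = 0 := hc
    have h4 : ⟪c.1, c.1⟫ = 0 := by linarith
    have h5 : ⟪c.2, c.2⟫ = 0 := by linarith
    exact Prod.ext (inner_self_eq_zero.1 h4) (inner_self_eq_zero.1 h5)
  have hdd0 : ∀ w : TangentSpace (IM m n) p, dd p w = 0 → w = 0 := by
    intro w hw
    refine dd_inj p ?_
    rw [hw]
    refine Prod.ext ?_ ?_ <;> simp [dd]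
  have ha0 : a ≠ 0 := by
    rintro rfl
    rw [map_zero] at ha
    rw [hdd0 u ha.symm] at huu
    simp at huu
  have hA : 0 < pr a a := lt_of_le_of_ne (pr_nonneg a) (fun h0 => ha0 (pr_zero a h0.symm))
  obtain ⟨r, hr, hr2⟩ : ∃ r : ℝ, 0 < r ∧ r * r = pr a a :=
    ⟨Real.sqrt (pr a a), Real.sqrt_pos.2 hA, Real.mul_self_sqrt hA.le⟩
  have hr0 : r ≠ 0 := hr.ne'
  obtain ⟨a', ha'⟩ : ∃ a', a' = r⁻¹ • a := ⟨_, rfl⟩
  have hara : a = r • a' := by rw [ha', smul_smul, mul_inv_cancel₀ hr0, one_smul]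
  have ha'a' : pr a' a' = 1 := by
    rw [ha', pr_smul_left, pr_smul_right, ← hr2]
    field_simp
  obtain ⟨s, hs⟩ : ∃ s, s = pr a' b := ⟨_, rfl⟩
  obtain ⟨c, hc⟩ : ∃ c, c = b - s • a' := ⟨_, rfl⟩
  have hac : pr a' c = 0 := by rw [hc, pr_sub_right, pr_smul_right, ha'a', ← hs]; ring
  have hlin : ∀ (x y : ℝ) (w w' : TangentSpace (IM m n) p), dd p (x • w + y • w') = x • dd p w + y • dd p w' := by
    intro x y w w'
    refine Prod.ext ?_ ?_ <;> simp [dd]
  have hc0 : c ≠ 0 := by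
    intro h0
    rw [hc] at h0
    have hb' : b = (s * r⁻¹) • a := by rw [mul_smul, ← ha', sub_eq_zero.1 h0]
    have hv' : v = (s * r⁻¹) • u := by
      refine dd_inj p ?_
      have := hlin (s * r⁻¹) 0 u u
      rw [zero_smul, add_zero, zero_smul, add_zero] at this
      rw [this, ← hb, ← ha, hb', map_smul]
    rw [hv', map_smul, smul_eq_mul, huu, mul_one] at huv0
    rw [hv', huv0] at hvv
    simp at hvv
  have hC : 0 < pr c c := lt_of_le_of_ne (pr_nonneg c) (fun h0 => hc0 (pr_zero c h0.symm))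
  obtain ⟨t, ht, ht2⟩ : ∃ t : ℝ, 0 < t ∧ t * t = pr c c :=
    ⟨Real.sqrt (pr c c), Real.sqrt_pos.2 hC, Real.mul_self_sqrt hC.le⟩
  have ht0 : t ≠ 0 := ht.ne'
  obtain ⟨b', hb'⟩ : ∃ b', b' = t⁻¹ • c := ⟨_, rfl⟩
  have hbb : b = s • a' + t • b' := by
    rw [hb', smul_smul, mul_inv_cancel₀ ht0, one_smul, hc]; abel
  have hb'b' : pr b' b' = 1 := by
    rw [hb', pr_smul_left, pr_smul_right, ← ht2]
    field_simp
  have ha'b' : pr a' b' = 0 := by rw [hb', pr_smul_right, hac, mul_zero]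
  have ta1 : ⟪(zz p).1, a'.1⟫ = 0 := by rw [ha', Prod.smul_fst, inner_smul_right, ha1, mul_zero]
  have ta2 : ⟪(zz p).2, a'.2⟫ = 0 := by rw [ha', Prod.smul_snd, inner_smul_right, ha2, mul_zero]
  have tb1 : ⟪(zz p).1, b'.1⟫ = 0 := by
    rw [hb', hc, Prod.smul_fst, Prod.fst_sub, Prod.smul_fst, inner_smul_right, inner_sub_right,
      inner_smul_right, ta1, hb1]
    ring
  have tb2 : ⟪(zz p).2, b'.2⟫ = 0 := by
    rw [hb', hc, Prod.smul_snd, Prod.snd_sub, Prod.smul_snd, inner_smul_right, inner_sub_right,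
      inner_smul_right, ta2, hb2]
    ring
  obtain ⟨X, -, hX⟩ := exists_X hW a'
  obtain ⟨Y, -, hY⟩ := exists_X hW b'
  have hu : u = r • X p := by
    refine dd_inj p ?_
    have := hlin r 0 (X p) (X p)
    rw [zero_smul, add_zero, zero_smul, add_zero] at this
    rw [this, hX, ← ha, hara, map_smul]
  have hv : v = s • X p + t • Y p := by
    refine dd_inj p ?_
    rw [hlin, hX, hY, ← hb, hbb, map_add, map_smul, map_smul]
  obtain ⟨γ, hγ1, hγ2, hγ, hK⟩ := curv_eq hW hg h hR p a' b' (X p) (Y p) (hX p) (hY p)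
  have hfin := hpos (zz p) a' b' γ (norm_zz1 p) (norm_zz2 p) ta1 ta2 tb1 tb2 ha'a' hb'b' ha'b'
    hγ1 hγ2 hγ
  rw [← hK] at hfin
  rw [sec, hu, hv, kappa_scale hW hg h hR]
  have : 0 < (r * t) ^ 2 := by positivity
  exact mul_pos this hfin

end

end H907G
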